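import Mathlib

open Finset Function

namespace Pool.Agent.Results.MP_0f9109_lc.RatioFourFifths

/-- A direct single-item mechanism for `n` bidders: at the report profile `v` bidder `i` receives
the item with probability `x v i` and her expected payment is `p v i`. -/
structure Mech (n : ℕ) where
  x : (Fin n → ℝ) → Fin n → ℝ
  p : (Fin n → ℝ) → Fin n → ℝ

/-- `M` is a feasible, individually rational, truthful-in-expectation mechanism for the set `K` of
bidders. The reports of the bidders outside `K` are fixed parameters. For `K = univ` this is the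
usual notion for all `n` bidders. -/
def Valid {n : ℕ} (K : Finset (Fin n)) (M : Mech n) : Prop :=
  ∀ v : Fin n → ℝ, (∀ i, 0 < v i) →
    (∀ i ∈ K, 0 ≤ M.x v i) ∧ (∑ i ∈ K, M.x v i ≤ 1) ∧
    (∀ i ∈ K, 0 ≤ M.x v i * v i - M.p v i) ∧
    (∀ i ∈ K, ∀ b : ℝ, 0 < b →
      M.x (update v i b) i * v i - M.p (update v i b) i ≤ M.x v i * v i - M.p v i)

/-- `D` is a finitely supported probability distribution on valuation profiles with positive
values. -/
def IsDist {n : ℕ} (D : (Fin n → ℝ) →₀ ℝ) : Prop :=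
  (∀ v, 0 ≤ D v) ∧ (∑ v ∈ D.support, D v = 1) ∧ ∀ v ∈ D.support, ∀ i, 0 < v i

/-- The optimal expected revenue over all mechanisms for all `n` bidders. -/
noncomputable def OPT {n : ℕ} (D : (Fin n → ℝ) →₀ ℝ) : ℝ :=
  sSup {r : ℝ | ∃ M : Mech n, Valid univ M ∧ r = ∑ v ∈ D.support, D v * ∑ i, M.p v i}

open Classical in
/-- The set of the `k` highest bidders at `v`, ties broken by index. -/
noncomputable def top {n : ℕ} (k : ℕ) (v : Fin n → ℝ) : Finset (Fin n) :=
  univ.filter fun i => (univ.filter fun j => v i < v j ∨ (v j = v i ∧ j < i)).card < k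

open Classical in
/-- The event that `D_K` conditions on: the profiles in the support that agree with `v` outside
`K` and in which every bidder of `K` has at least the largest value outside `K`. -/
noncomputable def cell {n : ℕ} (D : (Fin n → ℝ) →₀ ℝ) (K : Finset (Fin n)) (v : Fin n → ℝ) :
    Finset (Fin n → ℝ) :=
  D.support.filter fun u => (∀ j, j ∉ K → u j = v j) ∧ ∀ i ∈ K, ∀ j, j ∉ K → v j ≤ u i

/-- The expected revenue of `M` from the bidders in `K` under the conditional distribution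
`D_K`. -/
noncomputable def condRev {n : ℕ} (D : (Fin n → ℝ) →₀ ℝ) (K : Finset (Fin n)) (v : Fin n → ℝ)
    (M : Mech n) : ℝ :=
  (∑ u ∈ cell D K v, D u * ∑ i ∈ K, M.p u i) / ∑ u ∈ cell D K v, D u

/-- `M` is a revenue-maximizing mechanism for `D_K`. -/
def IsOptimalFor {n : ℕ} (D : (Fin n → ℝ) →₀ ℝ) (K : Finset (Fin n)) (v : Fin n → ℝ)
    (M : Mech n) : Prop :=
  Valid K M ∧ ∀ M' : Mech n, Valid K M' → condRev D K v M' ≤ condRev D K v M

/-- `m` is a `k`-lookahead mechanism for `D`: it serves only the set `K` of the `k` highest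
bidders, with a mechanism `m K` that is revenue-maximizing for `D_K`. -/
def IsLookahead {n : ℕ} (k : ℕ) (D : (Fin n → ℝ) →₀ ℝ) (m : Finset (Fin n) → Mech n) : Prop :=
  ∀ v ∈ D.support, IsOptimalFor D (top k v) v (m (top k v))

/-- The expected revenue of the `k`-lookahead mechanism `m`. -/
noncomputable def lookRev {n : ℕ} (k : ℕ) (D : (Fin n → ℝ) →₀ ℝ)
    (m : Finset (Fin n) → Mech n) : ℝ :=
  ∑ v ∈ D.support, D v * ∑ i ∈ top k v, (m (top k v)).p v i

/-- The approximation ratio of the `k`-lookahead mechanism. -/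
noncomputable def rho (k : ℕ) : ℝ :=
  sInf {t : ℝ | ∃ (n : ℕ) (D : (Fin n → ℝ) →₀ ℝ) (m : Finset (Fin n) → Mech n),
    IsDist D ∧ 0 < OPT D ∧ IsLookahead k D m ∧ t = lookRev k D m / OPT D}

/-! ### General facts on valid mechanisms -/

section general

variable {n : ℕ} {K : Finset (Fin n)} {M : Mech n}

lemma Valid.x_le_one (h : Valid K M) {v : Fin n → ℝ} (hv : ∀ i, 0 < v i) {i : Fin n}
    (hi : i ∈ K) : M.x v i ≤ 1 := by
  obtain ⟨h1, h2, -, -⟩ := h v hv
  exact (Finset.single_le_sum (f := fun i => M.x v i) h1 hi).trans h2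

lemma Valid.p_le (h : Valid K M) {v : Fin n → ℝ} (hv : ∀ i, 0 < v i) {i : Fin n}
    (hi : i ∈ K) : M.p v i ≤ M.x v i * v i := by
  obtain ⟨-, -, h3, -⟩ := h v hv
  linarith [h3 i hi]

lemma update_pos {v : Fin n → ℝ} (hv : ∀ i, 0 < v i) (i : Fin n) {b : ℝ} (hb : 0 < b) :
    ∀ j, 0 < update v i b j := by
  intro j
  rcases eq_or_ne j i with rfl | hj
  · simpa using hb
  · simpa [hj] using hv j

/-- Truthfulness between two reports. -/
lemma Valid.truth (h : Valid K M) {v : Fin n → ℝ} (hv : ∀ i, 0 < v i) {i : Fin n}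
    (hi : i ∈ K) {b c : ℝ} (hb : 0 < b) (hc : 0 < c) :
    M.x (update v i c) i * b - M.p (update v i c) i ≤
      M.x (update v i b) i * b - M.p (update v i b) i := by
  have := (h (update v i b) (update_pos hv i hb)).2.2.2 i hi c hc
  simpa using this

lemma Valid.mono (h : Valid K M) {v : Fin n → ℝ} (hv : ∀ i, 0 < v i) {i : Fin n}
    (hi : i ∈ K) {b c : ℝ} (hb : 0 < b) (hbc : b ≤ c) :
    M.x (update v i b) i ≤ M.x (update v i c) i := by
  rcases hbc.eq_or_lt with rfl | hlt
  · exact le_rfl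
  · have h1 := h.truth hv hi hb (hb.trans hlt)
    have h2 := h.truth hv hi (hb.trans hlt) hb
    by_contra hcon
    push Not at hcon
    nlinarith

end general

/-! ### Existence of optimal mechanisms -/

section existence

variable {n : ℕ}

/-- the infimum of the payments of `i` over her positive reports -/
noncomputable def g (M : Mech n) (i : Fin n) (v : Fin n → ℝ) : ℝ :=
  sInf ((fun b => M.p (update v i b) i) '' Set.Ioi 0)

lemma g_update (M : Mech n) (i : Fin n) (v : Fin n → ℝ) (b : ℝ) :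
    g M i (update v i b) = g M i v := by
  simp [g]

variable {K : Finset (Fin n)} {M : Mech n}

lemma p_update_ge (h : Valid K M) {v : Fin n → ℝ} (hv : ∀ i, 0 < v i) {i : Fin n}
    (hi : i ∈ K) {b : ℝ} (hb : 0 < b) :
    -(M.x v i * v i - M.p v i) ≤ M.p (update v i b) i := by
  have h1 := (h v hv).2.2.2 i hi b hb
  have h2 := (h (update v i b) (update_pos hv i hb)).1 i hi
  nlinarith [mul_nonneg h2 (hv i).le]

lemma g_bdd (h : Valid K M) {v : Fin n → ℝ} (hv : ∀ i, 0 < v i) {i : Fin n}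
    (hi : i ∈ K) : BddBelow ((fun b => M.p (update v i b) i) '' Set.Ioi 0) := by
  refine ⟨-(M.x v i * v i - M.p v i), ?_⟩
  rintro _ ⟨b, hb, rfl⟩
  exact p_update_ge h hv hi hb

lemma g_ge (h : Valid K M) {v : Fin n → ℝ} (hv : ∀ i, 0 < v i) {i : Fin n}
    (hi : i ∈ K) : -(M.x v i * v i - M.p v i) ≤ g M i v := by
  refine le_csInf ?_ ?_
  · exact ⟨_, 1, by simp, rfl⟩
  · rintro _ ⟨b, hb, rfl⟩
    exact p_update_ge h hv hi hb

lemma g_le (h : Valid K M) {v : Fin n → ℝ} (hv : ∀ i, 0 < v i) {i : Fin n}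
    (hi : i ∈ K) : g M i v ≤ M.p v i := by
  refine csInf_le (g_bdd h hv hi) ⟨v i, hv i, ?_⟩
  simp

lemma g_nonpos (h : Valid K M) {v : Fin n → ℝ} (hv : ∀ i, 0 < v i) {i : Fin n}
    (hi : i ∈ K) : g M i v ≤ 0 := by
  refine le_of_forall_pos_le_add fun δ hδ => ?_
  rw [zero_add]
  refine (csInf_le (g_bdd h hv hi) ⟨δ, hδ, rfl⟩).trans ?_
  have hp := update_pos hv i hδ
  have h1 := h.p_le hp hi
  have h2 := h.x_le_one hp hi
  rw [update_self] at h1
  nlinarith

open Classical in
/-- normalised mechanism with nonnegative payments -/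
noncomputable def norm' (K : Finset (Fin n)) (M : Mech n) : Mech n where
  x v i := if (∀ i, 0 < v i) ∧ i ∈ K then M.x v i else 0
  p v i := if (∀ i, 0 < v i) ∧ i ∈ K then M.p v i - g M i v else 0

/-- The compact set of normalised valid mechanisms. -/
def C (K : Finset (Fin n)) : Set (((Fin n → ℝ) → Fin n → ℝ) × ((Fin n → ℝ) → Fin n → ℝ)) :=
  ((Set.univ.pi fun _ => Set.univ.pi fun _ => Set.Icc 0 1) ×ˢ
    (Set.univ.pi fun v => Set.univ.pi fun i => Set.Icc 0 |v i|)) ∩
  {M | Valid K ⟨M.1, M.2⟩}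

lemma isClosed_valid (K : Finset (Fin n)) :
    IsClosed {M : ((Fin n → ℝ) → Fin n → ℝ) × ((Fin n → ℝ) → Fin n → ℝ) |
      Valid K ⟨M.1, M.2⟩} := by
  have hx : ∀ (v : Fin n → ℝ) (i : Fin n), Continuous
      (fun M : ((Fin n → ℝ) → Fin n → ℝ) × ((Fin n → ℝ) → Fin n → ℝ) => M.1 v i) := by
    intro v i; fun_prop
  have hp : ∀ (v : Fin n → ℝ) (i : Fin n), Continuous
      (fun M : ((Fin n → ℝ) → Fin n → ℝ) × ((Fin n → ℝ) → Fin n → ℝ) => M.2 v i) := by
    intro v i; fun_prop
  simp only [Valid, Set.ofPred_forall, Set.ofPred_and]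
  refine isClosed_iInter fun v => isClosed_iInter fun _ => ?_
  refine (isClosed_iInter fun i => isClosed_iInter fun _ => ?_).inter
    (IsClosed.inter ?_ (IsClosed.inter
      (isClosed_iInter fun i => isClosed_iInter fun _ => ?_)
      (isClosed_iInter fun i => isClosed_iInter fun _ => isClosed_iInter fun b =>
        isClosed_iInter fun _ => ?_)))
  · exact isClosed_le continuous_const (hx v i)
  · exact isClosed_le (continuous_finsetSum _ fun i _ => hx v i) continuous_const
  · exact isClosed_le continuous_const (((hx v i).mul continuous_const).sub (hp v i))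
  · exact isClosed_le (((hx _ i).mul continuous_const).sub (hp _ i))
      (((hx v i).mul continuous_const).sub (hp v i))

lemma isCompact_C (K : Finset (Fin n)) : IsCompact (C K) := by
  refine IsCompact.inter_right ?_ (isClosed_valid K)
  refine IsCompact.prod ?_ ?_
  · exact isCompact_univ_pi fun v => isCompact_univ_pi fun i => isCompact_Icc
  · exact isCompact_univ_pi fun v => isCompact_univ_pi fun i => isCompact_Icc

lemma valid_zero (K : Finset (Fin n)) : Valid K ⟨fun _ _ => 0, fun _ _ => 0⟩ := by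
  intro v hv
  simp

lemma norm'_mem (h : Valid K M) : ((norm' K M).x, (norm' K M).p) ∈ C K := by
  classical
  refine ⟨⟨?_, ?_⟩, ?_⟩
  · intro v _ i _
    simp only [norm']
    split_ifs with hc
    · exact ⟨(h v hc.1).1 i hc.2, h.x_le_one hc.1 hc.2⟩
    · simp
  · intro v _ i _
    simp only [norm']
    split_ifs with hc
    · refine ⟨by linarith [g_le h hc.1 hc.2], ?_⟩
      have h1 := g_ge h hc.1 hc.2
      have h2 := h.x_le_one hc.1 hc.2
      have h3 := le_abs_self (v i)
      nlinarith [hc.1 i]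
    · simp
  · intro v hv
    simp only [norm']
    refine ⟨?_, ?_, ?_, ?_⟩
    · intro i hi
      rw [if_pos ⟨hv, hi⟩]
      exact (h v hv).1 i hi
    · refine le_trans (le_of_eq ?_) (h v hv).2.1
      refine Finset.sum_congr rfl fun i hi => ?_
      rw [if_pos ⟨hv, hi⟩]
    · intro i hi
      rw [if_pos ⟨hv, hi⟩, if_pos ⟨hv, hi⟩]
      have h1 := g_ge h hv hi
      linarith
    · intro i hi b hb
      have hp := update_pos hv i hb
      rw [if_pos ⟨hp, hi⟩, if_pos ⟨hp, hi⟩, if_pos ⟨hv, hi⟩, if_pos ⟨hv, hi⟩, g_update]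
      have := (h v hv).2.2.2 i hi b hb
      linarith

/-- For every distribution and every conditioning event there is a revenue-maximizing
mechanism. -/
theorem exists_optimal (D : (Fin n → ℝ) →₀ ℝ) (hD : IsDist D) (K : Finset (Fin n))
    (v₀ : Fin n → ℝ) : ∃ M : Mech n, IsOptimalFor D K v₀ M := by
  classical
  let S : ((Fin n → ℝ) → Fin n → ℝ) × ((Fin n → ℝ) → Fin n → ℝ) → ℝ :=
    fun M => ∑ u ∈ cell D K v₀, D u * ∑ i ∈ K, M.2 u i
  have hS : Continuous S := by
    refine continuous_finsetSum _ fun u _ => continuous_const.mul ?_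
    refine continuous_finsetSum _ fun i _ => ?_
    fun_prop
  have hne : (C K).Nonempty := ⟨_, norm'_mem (valid_zero K)⟩
  obtain ⟨M, hM, hmax⟩ := (isCompact_C K).exists_isMaxOn hne hS.continuousOn
  refine ⟨⟨M.1, M.2⟩, hM.2, ?_⟩
  intro M' hM'
  have h1 : S ((norm' K M').x, (norm' K M').p) ≤ S M := hmax (norm'_mem hM')
  have hcell : ∀ u ∈ cell D K v₀, u ∈ D.support := by
    intro u hu
    exact (Finset.mem_filter.mp hu).1
  unfold condRev
  refine div_le_div_of_nonneg_right ?_ (Finset.sum_nonneg fun u _ => hD.1 u)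
  refine le_trans ?_ h1
  refine Finset.sum_le_sum fun u hu => mul_le_mul_of_nonneg_left ?_ (hD.1 u)
  refine Finset.sum_le_sum fun i hi => ?_
  have hpos := hD.2.2 u (hcell u hu)
  simp only [norm']
  rw [if_pos ⟨hpos, hi⟩]
  linarith [g_nonpos hM' hpos hi]

end existence

/-! ### Payments of an optimal mechanism are nonnegative on the event -/

section nonneg

variable {n : ℕ} {K : Finset (Fin n)} {M : Mech n}

lemma norm'_valid (h : Valid K M) : Valid K (norm' K M) := (norm'_mem h).2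

lemma cell_subset (D : (Fin n → ℝ) →₀ ℝ) (K : Finset (Fin n)) (v₀ : Fin n → ℝ) :
    ∀ u ∈ cell D K v₀, u ∈ D.support := by
  intro u hu
  exact (Finset.mem_filter.mp hu).1

lemma D_pos {D : (Fin n → ℝ) →₀ ℝ} (hD : IsDist D) {u : Fin n → ℝ} (hu : u ∈ D.support) :
    0 < D u := lt_of_le_of_ne (hD.1 u) (Ne.symm (Finsupp.mem_support_iff.mp hu))

lemma IsOptimalFor.pay_nonneg {D : (Fin n → ℝ) →₀ ℝ} (hD : IsDist D) {v₀ : Fin n → ℝ}
    (h : IsOptimalFor D K v₀ M) {u : Fin n → ℝ} (hu : u ∈ cell D K v₀) {i : Fin n}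
    (hi : i ∈ K) : 0 ≤ M.p u i := by
  by_contra hneg
  push Not at hneg
  have hV := h.1
  have h1 := h.2 _ (norm'_valid hV)
  refine absurd h1 (not_le.mpr ?_)
  unfold condRev
  have htot : 0 < ∑ u ∈ cell D K v₀, D u :=
    Finset.sum_pos (fun u hu => D_pos hD (cell_subset D K v₀ u hu)) ⟨u, hu⟩
  refine div_lt_div_of_pos_right ?_ htot
  have hterm : ∀ w ∈ cell D K v₀, ∀ j ∈ K, (norm' K M).p w j = M.p w j - g M j w := by
    intro w hw j hj
    have hpos := hD.2.2 w (cell_subset D K v₀ w hw)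
    simp only [norm']
    rw [if_pos ⟨hpos, hj⟩]
  have hle : ∀ w ∈ cell D K v₀, ∀ j ∈ K, M.p w j ≤ (norm' K M).p w j := by
    intro w hw j hj
    rw [hterm w hw j hj]
    linarith [g_nonpos hV (hD.2.2 w (cell_subset D K v₀ w hw)) hj]
  refine Finset.sum_lt_sum ?_ ⟨u, hu, ?_⟩
  · intro w hw
    exact mul_le_mul_of_nonneg_left (Finset.sum_le_sum fun j hj => hle w hw j hj) (hD.1 w)
  · refine mul_lt_mul_of_pos_left ?_ (D_pos hD (cell_subset D K v₀ u hu))
    refine Finset.sum_lt_sum (fun j hj => hle u hu j hj) ⟨i, hi, ?_⟩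
    rw [hterm u hu i hi]
    have := g_le hV (hD.2.2 u (cell_subset D K v₀ u hu)) hi
    linarith

lemma mem_cell_top {D : (Fin n → ℝ) →₀ ℝ} {v : Fin n → ℝ} (hv : v ∈ D.support) (k : ℕ) :
    v ∈ cell D (top k v) v := by
  classical
  refine Finset.mem_filter.mpr ⟨hv, fun _ _ => rfl, ?_⟩
  intro i hi j hj
  by_contra hcon
  push Not at hcon
  simp only [top, Finset.mem_filter, Finset.mem_univ, true_and] at hi hj
  refine hj (lt_of_le_of_lt (Finset.card_le_card ?_) hi)
  intro l hl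
  simp only [Finset.mem_filter, Finset.mem_univ, true_and] at hl ⊢
  left
  rcases hl with hl | hl
  · exact hcon.trans hl
  · rw [hl.1]; exact hcon

lemma lookRev_nonneg {k : ℕ} {D : (Fin n → ℝ) →₀ ℝ} (hD : IsDist D)
    {m : Finset (Fin n) → Mech n} (hm : IsLookahead k D m) : 0 ≤ lookRev k D m := by
  refine Finset.sum_nonneg fun v hv => mul_nonneg (hD.1 v) ?_
  exact Finset.sum_nonneg fun i hi => (hm v hv).pay_nonneg hD (mem_cell_top hv k) hi

lemma rho_bddBelow (k : ℕ) : BddBelow {t : ℝ | ∃ (n : ℕ) (D : (Fin n → ℝ) →₀ ℝ)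
    (m : Finset (Fin n) → Mech n),
    IsDist D ∧ 0 < OPT D ∧ IsLookahead k D m ∧ t = lookRev k D m / OPT D} := by
  refine ⟨0, ?_⟩
  rintro _ ⟨n, D, m, hD, hO, hm, rfl⟩
  exact div_nonneg (lookRev_nonneg hD hm) hO.le

lemma exists_lookahead {k : ℕ} {D : (Fin n → ℝ) →₀ ℝ} (hD : IsDist D)
    (hcell : ∃ (K : Finset (Fin n)) (v₀ : Fin n → ℝ), ∀ v ∈ D.support,
      top k v = K ∧ cell D K v = cell D K v₀) :
    ∃ m : Finset (Fin n) → Mech n, IsLookahead k D m := by
  obtain ⟨K, v₀, h⟩ := hcell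
  obtain ⟨M, hM⟩ := exists_optimal D hD K v₀
  refine ⟨fun _ => M, ?_⟩
  intro v hv
  obtain ⟨h1, h2⟩ := h v hv
  rw [h1]
  refine ⟨hM.1, ?_⟩
  intro M' hM'
  have := hM.2 M' hM'
  unfold condRev at this ⊢
  rw [h2]
  exact this

/-- The revenue of a valid mechanism is bounded. -/
lemma rev_bddAbove (D : (Fin n → ℝ) →₀ ℝ) (hD : IsDist D) :
    BddAbove {r : ℝ | ∃ M : Mech n, Valid univ M ∧
      r = ∑ v ∈ D.support, D v * ∑ i, M.p v i} := by
  refine ⟨∑ v ∈ D.support, D v * ∑ i, v i, ?_⟩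
  rintro _ ⟨M, hM, rfl⟩
  refine Finset.sum_le_sum fun v hv => mul_le_mul_of_nonneg_left ?_ (hD.1 v)
  refine Finset.sum_le_sum fun i _ => ?_
  have hpos := hD.2.2 v hv
  have h1 := hM.p_le hpos (Finset.mem_univ i)
  have h2 := hM.x_le_one hpos (Finset.mem_univ i)
  nlinarith [hpos i]

lemma le_OPT (D : (Fin n → ℝ) →₀ ℝ) (hD : IsDist D) {M : Mech n} (hM : Valid univ M) :
    ∑ v ∈ D.support, D v * ∑ i, M.p v i ≤ OPT D :=
  le_csSup (rev_bddAbove D hD) ⟨M, hM, rfl⟩

end nonneg

/-! ### The example -/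

section construction

/-- the grid values, in `(1, 1 + 1/m]` -/
noncomputable def val (m c : ℕ) : ℝ := 1 + ((c : ℝ) + 1) / (2 * (m : ℝ) ^ 2)

lemma val_gt {m : ℕ} (hm : 0 < m) (c : ℕ) : 1 < val m c := by
  unfold val
  have : (0 : ℝ) < m := by exact_mod_cast hm
  have : 0 < ((c : ℝ) + 1) / (2 * (m : ℝ) ^ 2) := by positivity
  linarith

lemma val_le {m : ℕ} (hm : 0 < m) {c : ℕ} (hc : c < 2 * m) : val m c ≤ 1 + 1 / m := by
  unfold val
  have hm' : (0 : ℝ) < m := by exact_mod_cast hm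
  have hc' : (c : ℝ) + 1 ≤ 2 * m := by exact_mod_cast hc
  have : ((c : ℝ) + 1) / (2 * (m : ℝ) ^ 2) ≤ 1 / m := by
    rw [div_le_div_iff₀ (by positivity) hm']
    nlinarith
  linarith

lemma val_strictMono {m : ℕ} (hm : 0 < m) : StrictMono (val m) := by
  intro a b hab
  unfold val
  have hm' : (0 : ℝ) < m := by exact_mod_cast hm
  have hab' : (a : ℝ) < b := by exact_mod_cast hab
  have : ((a : ℝ) + 1) / (2 * (m : ℝ) ^ 2) < ((b : ℝ) + 1) / (2 * (m : ℝ) ^ 2) := by
    apply div_lt_div_of_pos_right _ (by positivity)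
    linarith
  linarith

/-- the middle bidders -/
def mid {d : ℕ} (j : Fin (d + 1)) : Fin (d + 3) := j.castSucc.succ

/-- the set of all bidders but the last -/
def KK (d : ℕ) : Finset (Fin (d + 3)) := univ.erase (Fin.last (d + 2))

lemma zero_mem_KK (d : ℕ) : (0 : Fin (d + 3)) ∈ KK d := by
  refine Finset.mem_erase.mpr ⟨?_, Finset.mem_univ _⟩
  intro h
  have := congrArg Fin.val h
  simp at this

lemma mid_mem_KK {d : ℕ} (j : Fin (d + 1)) : mid j ∈ KK d := by
  refine Finset.mem_erase.mpr ⟨?_, Finset.mem_univ _⟩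
  intro h
  have := congrArg Fin.val h
  simp [mid] at this
  omega

lemma sum_all {d : ℕ} (f : Fin (d + 3) → ℝ) :
    ∑ i, f i = f 0 + ∑ j : Fin (d + 1), f (mid j) + f (Fin.last (d + 2)) := by
  rw [Fin.sum_univ_succ, Fin.sum_univ_castSucc]
  simp [mid]
  ring

lemma sum_KK {d : ℕ} (f : Fin (d + 3) → ℝ) :
    ∑ i ∈ KK d, f i = f 0 + ∑ j : Fin (d + 1), f (mid j) := by
  have h := Finset.add_sum_erase univ f (mem_univ (Fin.last (d + 2)))
  rw [sum_all] at h
  unfold KK
  linarith

/-- the profile with values `h` for bidder `0`, grid values for the middle bidders and `1` for the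
last bidder -/
noncomputable def prof {d m : ℕ} (h : ℝ) (g : Fin (d + 1) → Fin (2 * m)) : Fin (d + 3) → ℝ :=
  Fin.cons h (Fin.snoc (α := fun _ => ℝ) (fun j => val m (g j)) 1)

variable {d m : ℕ}

@[simp] lemma prof_zero (h : ℝ) (g : Fin (d + 1) → Fin (2 * m)) : prof h g 0 = h := rfl

@[simp] lemma prof_mid (h : ℝ) (g : Fin (d + 1) → Fin (2 * m)) (j : Fin (d + 1)) :
    prof h g (mid j) = val m (g j) := by
  simp [prof, mid]

@[simp] lemma prof_last (h : ℝ) (g : Fin (d + 1) → Fin (2 * m)) :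
    prof h g (Fin.last (d + 2)) = 1 := by
  rw [← Fin.succ_last]
  simp [prof]

/-- every bidder is the first, a middle or the last one -/
lemma cases_bidder (i : Fin (d + 3)) : i = 0 ∨ (∃ j : Fin (d + 1), i = mid j) ∨
    i = Fin.last (d + 2) := by
  refine Fin.cases (Or.inl rfl) (fun i => ?_) i
  refine Fin.lastCases (Or.inr (Or.inr ?_)) (fun j => Or.inr (Or.inl ⟨j, rfl⟩)) i
  simp

lemma prof_update_zero (h h' : ℝ) (g : Fin (d + 1) → Fin (2 * m)) :
    update (prof h g) 0 h' = prof h' g := by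
  simp [prof, Fin.update_cons_zero]

lemma mid_injective : Function.Injective (mid (d := d)) := by
  intro a b hab
  have := Fin.succ_injective _ hab
  exact Fin.castSucc_injective _ this

lemma mid_ne_zero (j : Fin (d + 1)) : mid j ≠ 0 := Fin.succ_ne_zero _

lemma last_ne_zero : Fin.last (d + 2) ≠ 0 := by
  intro h
  have := congrArg Fin.val h
  simp at this

lemma mid_ne_last (j : Fin (d + 1)) : mid j ≠ Fin.last (d + 2) :=
  (Finset.mem_erase.mp (mid_mem_KK j)).1

lemma prof_update_mid (h : ℝ) (g : Fin (d + 1) → Fin (2 * m)) (j : Fin (d + 1))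
    (c : Fin (2 * m)) : update (prof h g) (mid j) (val m c) = prof h (update g j c) := by
  funext i
  rcases cases_bidder i with rfl | ⟨l, rfl⟩ | rfl
  · rw [update_of_ne (mid_ne_zero j).symm, prof_zero, prof_zero]
  · rcases eq_or_ne l j with rfl | hl
    · rw [update_self, prof_mid, update_self]
    · rw [update_of_ne (fun hh => hl (mid_injective hh)), prof_mid, prof_mid, update_of_ne hl]
  · rw [update_of_ne (mid_ne_last j).symm, prof_last, prof_last]

lemma prof_pos (hm : 0 < m) {h : ℝ} (hh : 0 < h) (g : Fin (d + 1) → Fin (2 * m)) :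
    ∀ i, 0 < prof h g i := by
  intro i
  rcases cases_bidder i with rfl | ⟨l, rfl⟩ | rfl
  · simpa using hh
  · rw [prof_mid]; linarith [val_gt hm (g l : ℕ)]
  · rw [prof_last]; norm_num

/-- the parity sign of a grid point -/
noncomputable def sgn (g : Fin (d + 1) → Fin (2 * m)) : ℝ := ∏ j, (-1 : ℝ) ^ (g j : ℕ)

lemma sgn_eq (g : Fin (d + 1) → Fin (2 * m)) : sgn g = 1 ∨ sgn g = -1 := by
  unfold sgn
  rw [Finset.prod_pow_eq_pow_sum]
  exact neg_one_pow_eq_or ℝ _

/-- the alternating sum of a monotone sequence in `[0,1]` -/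
lemma alt_aux (b : ℕ → ℝ) (hb : Monotone b) (m : ℕ) :
    b 0 - b (2 * m) ≤ ∑ c ∈ Finset.range (2 * m), (-1 : ℝ) ^ c * b c ∧
      ∑ c ∈ Finset.range (2 * m), (-1 : ℝ) ^ c * b c ≤ 0 := by
  induction m with
  | zero => simp
  | succ m ih =>
    have e : 2 * (m + 1) = 2 * m + 1 + 1 := by ring
    rw [e, Finset.sum_range_succ, Finset.sum_range_succ]
    have h1 : (-1 : ℝ) ^ (2 * m) = 1 := by rw [pow_mul]; norm_num
    have h2 : (-1 : ℝ) ^ (2 * m + 1) = -1 := by rw [pow_succ, h1]; norm_num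
    rw [h1, h2]
    have h3 := hb (show 2 * m ≤ 2 * m + 1 by omega)
    have h4 := hb (show 2 * m + 1 ≤ 2 * m + 1 + 1 by omega)
    constructor <;> linarith [ih.1, ih.2]

lemma alt_sum {m : ℕ} (b : Fin (2 * m) → ℝ) (hb : Monotone b) (h0 : ∀ c, 0 ≤ b c)
    (h1 : ∀ c, b c ≤ 1) : |∑ c : Fin (2 * m), (-1 : ℝ) ^ (c : ℕ) * b c| ≤ 1 := by
  rcases Nat.eq_zero_or_pos m with rfl | hm
  · simp
  let b' : ℕ → ℝ := fun n => if h : n < 2 * m then b ⟨n, h⟩ else 1
  have hb' : Monotone b' := by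
    intro x y hxy
    simp only [b']
    by_cases hy : y < 2 * m
    · rw [dif_pos hy, dif_pos (lt_of_le_of_lt hxy hy)]
      exact hb (by simpa using hxy)
    · rw [dif_neg hy]
      split_ifs
      · exact h1 _
      · exact le_rfl
  have hs : ∑ c : Fin (2 * m), (-1 : ℝ) ^ (c : ℕ) * b c =
      ∑ c ∈ Finset.range (2 * m), (-1 : ℝ) ^ c * b' c := by
    rw [Finset.sum_range]
    refine Finset.sum_congr rfl fun c _ => ?_
    simp [b']
  rw [hs]
  obtain ⟨h2, h3⟩ := alt_aux b' hb' m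
  have h4 : b' (2 * m) ≤ 1 := by simp [b']
  have h5 : 0 ≤ b' 0 := by
    simp only [b']
    rw [dif_pos (by omega)]
    exact h0 _
  rw [abs_le]
  constructor <;> linarith

/-- summing over one coordinate first -/
lemma sum_insert (j : Fin (d + 1)) (F : (Fin (d + 1) → Fin (2 * m)) → ℝ) :
    ∑ g, F g = ∑ g' : Fin d → Fin (2 * m), ∑ c : Fin (2 * m),
      F (Fin.insertNth (α := fun _ => Fin (2 * m)) j c g') := by
  rw [Finset.sum_comm, ← Fintype.sum_prod_type', ← (Fin.insertNthEquiv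
    (fun _ => Fin (2 * m)) j).sum_comp]
  rfl

lemma sgn_insert (j : Fin (d + 1)) (c : Fin (2 * m)) (g' : Fin d → Fin (2 * m)) :
    sgn (Fin.insertNth (α := fun _ => Fin (2 * m)) j c g') =
      (-1 : ℝ) ^ (c : ℕ) * ∏ l, (-1 : ℝ) ^ (g' l : ℕ) := by
  unfold sgn
  rw [Fin.prod_univ_succAbove _ j]
  simp

/-- signed sums of functions that are monotone in one coordinate are small -/
lemma signed_sum_le (j : Fin (d + 1)) (F : (Fin (d + 1) → Fin (2 * m)) → ℝ)
    (h0 : ∀ g, 0 ≤ F g) (h1 : ∀ g, F g ≤ 1)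
    (hF : ∀ g, ∀ c c' : Fin (2 * m), c ≤ c' → F (update g j c) ≤ F (update g j c')) :
    |∑ g, sgn g * F g| ≤ (2 * m : ℝ) ^ d := by
  rw [sum_insert j]
  refine (Finset.abs_sum_le_sum_abs _ _).trans ?_
  have : ∀ g' ∈ (univ : Finset (Fin d → Fin (2 * m))),
      |∑ c : Fin (2 * m), sgn (Fin.insertNth (α := fun _ => Fin (2 * m)) j c g') *
        F (Fin.insertNth (α := fun _ => Fin (2 * m)) j c g')| ≤ 1 := by
    intro g' _
    have hs : ∑ c : Fin (2 * m), sgn (Fin.insertNth (α := fun _ => Fin (2 * m)) j c g') *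
        F (Fin.insertNth (α := fun _ => Fin (2 * m)) j c g') =
        (∏ l, (-1 : ℝ) ^ (g' l : ℕ)) * ∑ c : Fin (2 * m), (-1 : ℝ) ^ (c : ℕ) *
          F (Fin.insertNth (α := fun _ => Fin (2 * m)) j c g') := by
      rw [Finset.mul_sum]
      refine Finset.sum_congr rfl fun c _ => ?_
      rw [sgn_insert]
      ring
    rw [hs, abs_mul]
    have hp : |∏ l, (-1 : ℝ) ^ (g' l : ℕ)| = 1 := by
      rw [Finset.abs_prod]
      simp
    rw [hp, one_mul]
    refine alt_sum (fun c => F (Fin.insertNth (α := fun _ => Fin (2 * m)) j c g')) ?_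
      (fun c => h0 _) (fun c => h1 _)
    intro c c' hcc
    have := hF (Fin.insertNth (α := fun _ => Fin (2 * m)) j c g') c c' hcc
    simpa [Fin.update_insertNth] using this
  refine (Finset.sum_le_sum this).trans (le_of_eq ?_)
  simp

lemma alt_zero (m : ℕ) : ∑ c ∈ Finset.range (2 * m), (-1 : ℝ) ^ c = 0 := by
  induction m with
  | zero => simp
  | succ m ih =>
    have e : 2 * (m + 1) = 2 * m + 1 + 1 := by ring
    rw [e, Finset.sum_range_succ, Finset.sum_range_succ, ih]
    have h1 : (-1 : ℝ) ^ (2 * m) = 1 := by rw [pow_mul]; norm_num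
    rw [pow_succ, h1]
    norm_num

lemma sum_sgn : ∑ g : Fin (d + 1) → Fin (2 * m), sgn g = 0 := by
  rw [sum_insert 0]
  refine Finset.sum_eq_zero fun g' _ => ?_
  simp only [sgn_insert, ← Finset.sum_mul]
  have : ∑ c : Fin (2 * m), (-1 : ℝ) ^ (c : ℕ) = 0 := by
    rw [Fin.sum_univ_eq_sum_range (fun c => (-1 : ℝ) ^ c) (2 * m)]
    exact alt_zero m
  rw [this, zero_mul]

/-- the number of grid points -/
noncomputable def N0 (d m : ℕ) : ℝ := (2 * m : ℝ) ^ (d + 1)

lemma N0_pos (hm : 0 < m) : 0 < N0 d m := by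
  have : (0 : ℝ) < m := by exact_mod_cast hm
  unfold N0
  positivity

lemma sum_one : ∑ _g : Fin (d + 1) → Fin (2 * m), (1 : ℝ) = N0 d m := by
  simp [N0]

/-- the weight of the profile with `v₀ = 2` -/
noncomputable def w2 (g : Fin (d + 1) → Fin (2 * m)) : ℝ :=
  ((1 + sgn g) / 2 + (1 - 1 / m) * ((1 - sgn g) / 2)) / N0 d m

/-- the weight of the profile with `v₀ = 2m` -/
noncomputable def wH (g : Fin (d + 1) → Fin (2 * m)) : ℝ :=
  ((1 / m) * ((1 - sgn g) / 2)) / N0 d m

lemma w2_nonneg (hm : 0 < m) (g : Fin (d + 1) → Fin (2 * m)) : 0 ≤ w2 g := by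
  unfold w2
  refine div_nonneg ?_ (N0_pos hm).le
  have hm' : (1 : ℝ) ≤ m := by exact_mod_cast hm
  have : 1 / (m : ℝ) ≤ 1 := by rw [div_le_one (by linarith)]; exact hm'
  rcases sgn_eq g with h | h <;> rw [h] <;> nlinarith

lemma wH_nonneg (hm : 0 < m) (g : Fin (d + 1) → Fin (2 * m)) : 0 ≤ wH g := by
  unfold wH
  refine div_nonneg ?_ (N0_pos hm).le
  have hm' : (0 : ℝ) < m := by exact_mod_cast hm
  have : 0 < 1 / (m : ℝ) := by positivity
  rcases sgn_eq g with h | h <;> rw [h] <;> nlinarith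

lemma w_add (g : Fin (d + 1) → Fin (2 * m)) : w2 g + wH g = 1 / N0 d m := by
  unfold w2 wH
  rw [← add_div]
  congr 1
  ring

/-- the distribution of the example -/
noncomputable def DD (d m : ℕ) : (Fin (d + 3) → ℝ) →₀ ℝ :=
  ∑ g : Fin (d + 1) → Fin (2 * m),
    (Finsupp.single (prof 2 g) (w2 g) + Finsupp.single (prof (2 * m) g) (wH g))

lemma DD_apply (v : Fin (d + 3) → ℝ) : DD d m v = ∑ g : Fin (d + 1) → Fin (2 * m),
    (Finsupp.single (prof 2 g) (w2 g) v + Finsupp.single (prof (2 * m) g) (wH g) v) := by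
  unfold DD
  rw [Finsupp.finsetSum_apply]
  rfl

lemma DD_expect (F : (Fin (d + 3) → ℝ) → ℝ) :
    ∑ v ∈ (DD d m).support, DD d m v * F v =
      ∑ g : Fin (d + 1) → Fin (2 * m), (w2 g * F (prof 2 g) + wH g * F (prof (2 * m) g)) := by
  have h := congrArg (Finsupp.linearCombination ℝ F) (show DD d m = _ from rfl)
  have h1 : Finsupp.linearCombination ℝ F (DD d m) =
      ∑ v ∈ (DD d m).support, DD d m v * F v := rfl
  rw [← h1]
  unfold DD
  rw [map_sum]
  refine Finset.sum_congr rfl fun g _ => ?_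
  rw [map_add, Finsupp.linearCombination_single, Finsupp.linearCombination_single]
  rfl

lemma DD_support {v : Fin (d + 3) → ℝ} (hv : v ∈ (DD d m).support) :
    ∃ g : Fin (d + 1) → Fin (2 * m), v = prof 2 g ∨ v = prof (2 * m) g := by
  classical
  by_contra hcon
  push Not at hcon
  refine (Finsupp.mem_support_iff.mp hv) ?_
  rw [DD_apply]
  refine Finset.sum_eq_zero fun g _ => ?_
  rw [Finsupp.single_eq_of_ne (hcon g).1, Finsupp.single_eq_of_ne (hcon g).2, add_zero]

lemma DD_isDist (hm : 0 < m) : IsDist (DD d m) := by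
  classical
  refine ⟨?_, ?_, ?_⟩
  · intro v
    rw [DD_apply]
    refine Finset.sum_nonneg fun g _ => add_nonneg ?_ ?_
    · rw [Finsupp.single_apply]
      split_ifs
      · exact w2_nonneg hm g
      · exact le_rfl
    · rw [Finsupp.single_apply]
      split_ifs
      · exact wH_nonneg hm g
      · exact le_rfl
  · have h := DD_expect (d := d) (m := m) (fun _ => 1)
    simp only [mul_one] at h
    rw [h]
    simp only [w_add]
    rw [← Finset.sum_div, sum_one, div_self (N0_pos hm).ne']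
  · intro v hv i
    have hm' : (0 : ℝ) < m := by exact_mod_cast hm
    obtain ⟨g, rfl | rfl⟩ := DD_support hv
    · exact prof_pos hm (by norm_num) g i
    · exact prof_pos hm (by positivity) g i

lemma prof_last_lt (hm : 0 < m) {h : ℝ} (hh : 1 < h) (g : Fin (d + 1) → Fin (2 * m))
    {i : Fin (d + 3)} (hi : i ≠ Fin.last (d + 2)) : 1 < prof h g i := by
  rcases cases_bidder i with rfl | ⟨l, rfl⟩ | rfl
  · simpa using hh
  · rw [prof_mid]; exact val_gt hm _
  · exact absurd rfl hi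

lemma top_prof (hm : 0 < m) {h : ℝ} (hh : 1 < h) (g : Fin (d + 1) → Fin (2 * m)) :
    top (d + 2) (prof h g) = KK d := by
  classical
  ext i
  simp only [top, KK, Finset.mem_filter, Finset.mem_univ, true_and, Finset.mem_erase, and_true]
  constructor
  · rintro hlt rfl
    refine absurd hlt (not_lt.mpr ?_)
    have hc : (univ.erase (Fin.last (d + 2))).card = d + 2 := by
      rw [Finset.card_erase_of_mem (Finset.mem_univ _), Finset.card_univ, Fintype.card_fin]
      rfl
    refine hc.symm.le.trans (Finset.card_le_card ?_)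
    intro j hj
    simp only [Finset.mem_filter, Finset.mem_univ, true_and]
    left
    rw [prof_last]
    exact prof_last_lt hm hh g (Finset.mem_erase.mp hj).1
  · intro hi
    have : (univ.filter fun j => prof h g i < prof h g j ∨
        (prof h g j = prof h g i ∧ j < i)) ⊆ (univ.erase (Fin.last (d + 2))).erase i := by
      intro j hj
      simp only [Finset.mem_filter, Finset.mem_univ, true_and] at hj
      have hgt := prof_last_lt hm hh g hi
      simp only [Finset.mem_erase, Finset.mem_univ, and_true]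
      refine ⟨?_, ?_⟩
      · rintro rfl
        rcases hj with hj | hj
        · exact lt_irrefl _ hj
        · exact lt_irrefl _ hj.2
      · rintro rfl
        rw [prof_last] at hj
        rcases hj with hj | hj
        · linarith
        · linarith [hj.1]
    have h2 := Finset.card_le_card this
    rw [Finset.card_erase_of_mem (Finset.mem_erase.mpr ⟨hi, Finset.mem_univ _⟩),
      Finset.card_erase_of_mem (Finset.mem_univ _), Finset.card_univ, Fintype.card_fin] at h2
    omega

lemma two_m_gt (hm : 2 ≤ m) : (1 : ℝ) < 2 * m := by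
  have : (2 : ℝ) ≤ m := by exact_mod_cast hm
  linarith

lemma top_DD (hm : 2 ≤ m) {v : Fin (d + 3) → ℝ} (hv : v ∈ (DD d m).support) :
    top (d + 2) v = KK d := by
  obtain ⟨g, rfl | rfl⟩ := DD_support hv
  · exact top_prof (by omega) (by norm_num) g
  · exact top_prof (by omega) (two_m_gt hm) g

lemma DD_last {v : Fin (d + 3) → ℝ} (hv : v ∈ (DD d m).support) :
    v (Fin.last (d + 2)) = 1 := by
  obtain ⟨g, rfl | rfl⟩ := DD_support hv
  · exact prof_last _ _
  · exact prof_last _ _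

lemma DD_gt (hm : 2 ≤ m) {v : Fin (d + 3) → ℝ} (hv : v ∈ (DD d m).support) {i : Fin (d + 3)}
    (hi : i ≠ Fin.last (d + 2)) : 1 < v i := by
  obtain ⟨g, rfl | rfl⟩ := DD_support hv
  · exact prof_last_lt (by omega) (by norm_num) g hi
  · exact prof_last_lt (by omega) (two_m_gt hm) g hi

lemma cell_DD (hm : 2 ≤ m) {v : Fin (d + 3) → ℝ} (hv : v ∈ (DD d m).support) :
    cell (DD d m) (KK d) v = (DD d m).support := by
  classical
  refine Finset.filter_true_of_mem fun u hu => ?_
  have hK : ∀ j : Fin (d + 3), j ∉ KK d → j = Fin.last (d + 2) := by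
    intro j hj
    by_contra hne
    exact hj (Finset.mem_erase.mpr ⟨hne, Finset.mem_univ _⟩)
  refine ⟨?_, ?_⟩
  · intro j hj
    rw [hK j hj, DD_last hu, DD_last hv]
  · intro i hi j hj
    rw [hK j hj, DD_last hv]
    exact (DD_gt hm hu (Finset.mem_erase.mp hi).1).le

lemma exists_look_DD (hm : 2 ≤ m) :
    ∃ M : Finset (Fin (d + 3)) → Mech (d + 3), IsLookahead (d + 2) (DD d m) M := by
  have hD : IsDist (DD d m) := DD_isDist (by omega)
  have hne : (DD d m).support.Nonempty := by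
    by_contra hcon
    rw [Finset.not_nonempty_iff_eq_empty] at hcon
    have := hD.2.1
    rw [hcon] at this
    simp at this
  obtain ⟨v₀, hv₀⟩ := hne
  refine exists_lookahead hD ⟨KK d, v₀, fun v hv => ⟨top_DD hm hv, ?_⟩⟩
  rw [cell_DD hm hv, cell_DD hm hv₀]

/-- Every mechanism for the bidders other than the last one earns at most about `2`. -/
lemma rev_le (hm : 2 ≤ m) {M : Mech (d + 3)} (hM : Valid (KK d) M) :
    ∑ v ∈ (DD d m).support, DD d m v * ∑ i ∈ KK d, M.p v i ≤ 2 + (d + 4) / m := by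
  have hm0 : 0 < m := by omega
  have hmR : (2 : ℝ) ≤ m := by exact_mod_cast hm
  have hmpos : (0 : ℝ) < m := by linarith
  rw [DD_expect]
  have hN := N0_pos (d := d) hm0
  -- abbreviations
  set A : (Fin (d + 1) → Fin (2 * m)) → Fin (d + 3) → ℝ := fun g => prof 2 g with hA
  set B : (Fin (d + 1) → Fin (2 * m)) → Fin (d + 3) → ℝ := fun g => prof (2 * m) g with hB
  have hApos : ∀ g, ∀ i, 0 < A g i := fun g => prof_pos hm0 (by norm_num) g
  have hBpos : ∀ g, ∀ i, 0 < B g i := fun g => prof_pos hm0 (by positivity) g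
  have hAx : ∀ g, ∀ i ∈ KK d, 0 ≤ M.x (A g) i := fun g => (hM (A g) (hApos g)).1
  have hBx : ∀ g, ∀ i ∈ KK d, 0 ≤ M.x (B g) i := fun g => (hM (B g) (hBpos g)).1
  have hAs : ∀ g, M.x (A g) 0 + ∑ j : Fin (d + 1), M.x (A g) (mid j) ≤ 1 := by
    intro g
    have := (hM (A g) (hApos g)).2.1
    rwa [sum_KK (fun i => M.x (A g) i)] at this
  have hBs : ∀ g, M.x (B g) 0 + ∑ j : Fin (d + 1), M.x (B g) (mid j) ≤ 1 := by
    intro g
    have := (hM (B g) (hBpos g)).2.1
    rwa [sum_KK (fun i => M.x (B g) i)] at this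
  -- bidder 0
  have hA0 : ∀ g, M.p (A g) 0 ≤ 2 * M.x (A g) 0 := by
    intro g
    have := hM.p_le (hApos g) (zero_mem_KK d)
    simp only [hA, prof_zero] at this ⊢
    linarith
  have hB0 : ∀ g, (1 - 1 / (m : ℝ)) * M.p (A g) 0 + 1 / m * M.p (B g) 0 ≤ 2 := by
    intro g
    have ht := hM.truth (hApos g) (zero_mem_KK d) (b := 2 * m) (c := 2) (by positivity)
      (by norm_num)
    simp only [hA, prof_update_zero] at ht
    have h1 := hA0 g
    have h2 := hM.x_le_one (hBpos g) (zero_mem_KK d)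
    simp only [hA, hB] at h1 h2 ⊢
    have h3 : 1 / (m : ℝ) * (2 * m) = 2 := by field_simp
    have h4 : 1 / (m : ℝ) * (M.x (prof 2 g) 0 * (2 * m) - M.p (prof 2 g) 0) ≤
        1 / m * (M.x (prof (2 * m) g) 0 * (2 * m) - M.p (prof (2 * m) g) 0) :=
      mul_le_mul_of_nonneg_left ht (by positivity)
    have h5 : 1 / (m : ℝ) * (M.x (prof 2 g) 0 * (2 * m) - M.p (prof 2 g) 0) =
      2 * M.x (prof 2 g) 0 - 1 / m * M.p (prof 2 g) 0 := by
      rw [mul_sub, mul_comm (M.x (prof 2 g) 0), ← mul_assoc, h3]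
    have h6 : 1 / (m : ℝ) * (M.x (prof (2 * m) g) 0 * (2 * m) - M.p (prof (2 * m) g) 0) =
      2 * M.x (prof (2 * m) g) 0 - 1 / m * M.p (prof (2 * m) g) 0 := by
      rw [mul_sub, mul_comm (M.x (prof (2 * m) g) 0), ← mul_assoc, h3]
    rw [h5, h6] at h4
    linarith
  -- middle bidders
  have hAj : ∀ g, ∀ j : Fin (d + 1), M.p (A g) (mid j) ≤ (1 + 1 / m) * M.x (A g) (mid j) := by
    intro g j
    have h1 := hM.p_le (hApos g) (mid_mem_KK j)
    have h2 : A g (mid j) ≤ 1 + 1 / m := by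
      simp only [hA, prof_mid]
      exact val_le hm0 (g j).2
    have h3 := hAx g _ (mid_mem_KK j)
    nlinarith
  have hBj : ∀ g, ∀ j : Fin (d + 1), M.p (B g) (mid j) ≤ (1 + 1 / m) * M.x (B g) (mid j) := by
    intro g j
    have h1 := hM.p_le (hBpos g) (mid_mem_KK j)
    have h2 : B g (mid j) ≤ 1 + 1 / m := by
      simp only [hB, prof_mid]
      exact val_le hm0 (g j).2
    have h3 := hBx g _ (mid_mem_KK j)
    nlinarith
  -- signed sums
  have hsig : ∀ j : Fin (d + 1), |∑ g, sgn g * M.x (A g) (mid j)| ≤ (2 * m : ℝ) ^ d := by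
    intro j
    refine signed_sum_le j (fun g => M.x (A g) (mid j)) (fun g => hAx g _ (mid_mem_KK j))
      (fun g => hM.x_le_one (hApos g) (mid_mem_KK j)) ?_
    intro g c c' hcc
    simp only [hA]
    rw [← prof_update_mid, ← prof_update_mid]
    exact hM.mono (hApos g) (mid_mem_KK j) (by linarith [val_gt hm0 (c : ℕ)])
      ((val_strictMono hm0).monotone hcc)
  -- pointwise estimate
  have hpt : ∀ g, w2 g * ∑ i ∈ KK d, M.p (A g) i + wH g * ∑ i ∈ KK d, M.p (B g) i ≤
      ((1 + 1 / m) * (1 + sgn g) + (1 - sgn g) - (1 + 1 / m) *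
        ∑ j : Fin (d + 1), sgn g * M.x (A g) (mid j) + (1 + 1 / m) * (1 / m)) / N0 d m := by
    intro g
    rw [sum_KK, sum_KK]
    unfold w2 wH
    rw [div_mul_eq_mul_div, div_mul_eq_mul_div, ← add_div]
    refine div_le_div_of_nonneg_right ?_ hN.le
    have hSA : ∑ j : Fin (d + 1), M.p (A g) (mid j) ≤
        (1 + 1 / m) * ∑ j : Fin (d + 1), M.x (A g) (mid j) := by
      rw [Finset.mul_sum]
      exact Finset.sum_le_sum fun j _ => hAj g j
    have hSB : ∑ j : Fin (d + 1), M.p (B g) (mid j) ≤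
        (1 + 1 / m) * ∑ j : Fin (d + 1), M.x (B g) (mid j) := by
      rw [Finset.mul_sum]
      exact Finset.sum_le_sum fun j _ => hBj g j
    have hXA : 0 ≤ ∑ j : Fin (d + 1), M.x (A g) (mid j) :=
      Finset.sum_nonneg fun j _ => hAx g _ (mid_mem_KK j)
    have hXB : 0 ≤ ∑ j : Fin (d + 1), M.x (B g) (mid j) :=
      Finset.sum_nonneg fun j _ => hBx g _ (mid_mem_KK j)
    have h0A := hAx g _ (zero_mem_KK d)
    have h0B := hBx g _ (zero_mem_KK d)
    have hsA := hAs g
    have hsB := hBs g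
    have h1 := hA0 g
    have h2 := hB0 g
    rw [← Finset.mul_sum]
    set XA := ∑ j : Fin (d + 1), M.x (A g) (mid j) with hXAdef
    set XB := ∑ j : Fin (d + 1), M.x (B g) (mid j) with hXBdef
    set PA := ∑ j : Fin (d + 1), M.p (A g) (mid j) with hPAdef
    set PB := ∑ j : Fin (d + 1), M.p (B g) (mid j) with hPBdef
    have hq : 0 < 1 / (m : ℝ) := by positivity
    have hq1 : 1 / (m : ℝ) ≤ 1 := by rw [div_le_one hmpos]; linarith
    set q := 1 / (m : ℝ) with hqdef
    rcases sgn_eq g with h | h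
    · rw [h]
      -- even: p0(A) + PA ≤ 2 x0 + (1+q) XA, want ≤ 2(1+q) - (1+q) XA + ..
      nlinarith
    · rw [h]
      -- odd: (1-q)(p0A + PA) + q (p0B + PB)
      have e1 : (1 - q) * PA ≤ (1 - q) * ((1 + q) * XA) :=
        mul_le_mul_of_nonneg_left hSA (by linarith)
      have e2 : q * PB ≤ q * ((1 + q) * XB) := mul_le_mul_of_nonneg_left hSB hq.le
      have e3 : XB ≤ 1 := by linarith
      have e4 : q * ((1 + q) * XB) ≤ q * ((1 + q) * 1) := by gcongr
      have e5 : (1 - q) * ((1 + q) * XA) ≤ (1 + q) * XA := by nlinarith [mul_nonneg hq.le hXA]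
      nlinarith
  refine (Finset.sum_le_sum fun g _ => hpt g).trans ?_
  rw [← Finset.sum_div, div_le_iff₀ hN]
  have hS0 : ∑ g : Fin (d + 1) → Fin (2 * m), sgn g = 0 := sum_sgn
  have hS1 := sum_one (d := d) (m := m)
  rw [Finset.sum_add_distrib, Finset.sum_sub_distrib, Finset.sum_add_distrib, ← Finset.mul_sum,
    Finset.sum_add_distrib, Finset.sum_sub_distrib, ← Finset.mul_sum, Finset.sum_comm, hS0, hS1]
  have hlow : -((d + 1 : ℝ) * (2 * m : ℝ) ^ d) ≤
      ∑ j : Fin (d + 1), ∑ g, sgn g * M.x (A g) (mid j) := by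
    have : ∑ _j : Fin (d + 1), -((2 * m : ℝ) ^ d) ≤
        ∑ j : Fin (d + 1), ∑ g, sgn g * M.x (A g) (mid j) :=
      Finset.sum_le_sum fun j _ => (abs_le.mp (hsig j)).1
    refine le_trans (le_of_eq ?_) this
    simp
  have hc : ∑ _g : Fin (d + 1) → Fin (2 * m), (1 + 1 / (m : ℝ)) * (1 / m) =
      (1 + 1 / (m : ℝ)) * (1 / m) * N0 d m := by
    rw [← sum_one (d := d) (m := m), Finset.mul_sum]
    simp
  rw [hc]
  have hNd : N0 d m = (2 * m) * (2 * m : ℝ) ^ d := by unfold N0; ring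
  set T := ∑ j : Fin (d + 1), ∑ g, sgn g * M.x (A g) (mid j) with hT
  have hpow : (2 * m : ℝ) ^ d = N0 d m * (1 / m) / 2 := by
    rw [hNd]; field_simp
  rw [hpow] at hlow
  have hq : 0 < 1 / (m : ℝ) := by positivity
  have hq1 : 1 / (m : ℝ) ≤ 1 / 2 := by
    rw [div_le_div_iff₀ hmpos (by norm_num)]; linarith
  have hdq : ((d : ℝ) + 4) / m = (d + 4) * (1 / m) := by ring
  rw [hdq]
  set q := 1 / (m : ℝ) with hqdef
  have e1 : -((1 + q) * T) ≤ (1 + q) * ((d + 1) * (N0 d m * q / 2)) := by nlinarith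
  have hd : (0 : ℝ) ≤ d := Nat.cast_nonneg d
  have e2 : (1 + q) * ((d + 1) * (N0 d m * q / 2)) ≤ (d + 1) * (N0 d m * q) := by
    have : 0 ≤ (d + 1) * (N0 d m * q) := by positivity
    nlinarith
  have e3 : (1 + q) * q * N0 d m ≤ 2 * q * N0 d m := by
    have : 0 ≤ q * N0 d m := by positivity
    nlinarith
  nlinarith

/-! ### The lower bound on the optimal revenue -/

/-- the reports of the middle bidders form an even grid point -/
def Ev (m : ℕ) (v : Fin (d + 3) → ℝ) : Prop :=
  ∃ g : Fin (d + 1) → Fin (2 * m), sgn g = 1 ∧ ∀ j, v (mid j) = val m (g j)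

open Classical in
/-- the price for bidder `0` -/
noncomputable def price (m : ℕ) (v : Fin (d + 3) → ℝ) : ℝ := if Ev m v then 2 else 2 * m

open Classical in
/-- the allocation -/
noncomputable def alloc (m : ℕ) (v : Fin (d + 3) → ℝ) (i : Fin (d + 3)) : ℝ :=
  if i = 0 then (if price m v ≤ v 0 then 1 else 0)
  else if i = Fin.last (d + 2) then
    (if ¬ Ev m v ∧ v 0 < 2 * m ∧ 1 ≤ v (Fin.last (d + 2)) then 1 else 0)
  else 0

/-- the mechanism for the lower bound -/
noncomputable def MStar (d m : ℕ) : Mech (d + 3) where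
  x v i := alloc m v i
  p v i := alloc m v i * (if i = 0 then price m v else 1)

lemma alloc_zero (v : Fin (d + 3) → ℝ) [Decidable (price m v ≤ v 0)] :
    alloc m v 0 = if price m v ≤ v 0 then 1 else 0 := by
  unfold alloc
  rw [if_pos rfl]
  congr

lemma alloc_last (v : Fin (d + 3) → ℝ)
    [Decidable (¬ Ev m v ∧ v 0 < 2 * m ∧ 1 ≤ v (Fin.last (d + 2)))] :
    alloc m v (Fin.last (d + 2)) =
      if ¬ Ev m v ∧ v 0 < 2 * m ∧ 1 ≤ v (Fin.last (d + 2)) then 1 else 0 := by
  unfold alloc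
  rw [if_neg last_ne_zero, if_pos rfl]
  congr

lemma alloc_mid (v : Fin (d + 3) → ℝ) (j : Fin (d + 1)) : alloc m v (mid j) = 0 := by
  unfold alloc
  rw [if_neg (mid_ne_zero j), if_neg (mid_ne_last j)]

lemma alloc_nonneg (v : Fin (d + 3) → ℝ) (i : Fin (d + 3)) : 0 ≤ alloc m v i := by
  unfold alloc
  split_ifs <;> norm_num

lemma Ev_update {v : Fin (d + 3) → ℝ} {i : Fin (d + 3)} (hi : ∀ j : Fin (d + 1), mid j ≠ i)
    (b : ℝ) : Ev m (update v i b) ↔ Ev m v := by
  unfold Ev
  simp only [update_of_ne (hi _)]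

lemma price_update {v : Fin (d + 3) → ℝ} {i : Fin (d + 3)} (hi : ∀ j : Fin (d + 1), mid j ≠ i)
    (b : ℝ) : price m (update v i b) = price m v := by
  unfold price
  by_cases h : Ev m v
  · rw [if_pos h, if_pos ((Ev_update hi b).mpr h)]
  · rw [if_neg h, if_neg (fun h' => h ((Ev_update hi b).mp h'))]

lemma MStar_valid (d m : ℕ) : Valid univ (MStar d m) := by
  classical
  intro v hv
  refine ⟨fun i _ => alloc_nonneg v i, ?_, ?_, ?_⟩
  · change ∑ i, alloc m v i ≤ 1
    rw [sum_all, alloc_zero, alloc_last]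
    simp only [alloc_mid, Finset.sum_const_zero, add_zero]
    by_cases h1 : price m v ≤ v 0
    · rw [if_pos h1, if_neg]
      · norm_num
      · rintro ⟨h2, h3, -⟩
        unfold price at h1
        rw [if_neg h2] at h1
        linarith
    · rw [if_neg h1]
      split_ifs <;> norm_num
  · intro i _
    change 0 ≤ alloc m v i * v i - alloc m v i * (if i = 0 then price m v else 1)
    rcases cases_bidder i with rfl | ⟨l, rfl⟩ | rfl
    · rw [alloc_zero, if_pos rfl]
      split_ifs with h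
      · linarith
      · simp
    · simp [alloc_mid]
    · rw [alloc_last, if_neg last_ne_zero]
      split_ifs with h
      · linarith [h.2.2]
      · simp
  · intro i _ b hb
    change alloc m (update v i b) i * v i -
      alloc m (update v i b) i * (if i = 0 then price m (update v i b) else 1) ≤
      alloc m v i * v i - alloc m v i * (if i = 0 then price m v else 1)
    rcases cases_bidder i with rfl | ⟨l, rfl⟩ | rfl
    · rw [alloc_zero, alloc_zero, if_pos rfl, if_pos rfl, price_update mid_ne_zero, update_self]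
      split_ifs with h1 h2 h2
      · exact le_rfl
      · linarith
      · linarith
      · exact le_rfl
    · simp [alloc_mid]
    · rw [alloc_last, alloc_last, if_neg last_ne_zero, if_neg last_ne_zero,
        Ev_update mid_ne_last, update_self, update_of_ne last_ne_zero.symm]
      split_ifs with h1 h2 h2
      · exact le_rfl
      · have h3 : v (Fin.last (d + 2)) < 1 := by
          by_contra hcon
          push Not at hcon
          exact h2 ⟨h1.1, h1.2.1, hcon⟩
        linarith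
      · linarith [h2.2.2]
      · exact le_rfl

lemma Ev_prof (hm : 0 < m) (h : ℝ) (g : Fin (d + 1) → Fin (2 * m)) :
    Ev m (prof h g) ↔ sgn g = 1 := by
  constructor
  · rintro ⟨g', h1, h2⟩
    have : g' = g := by
      funext j
      have := h2 j
      rw [prof_mid] at this
      exact (Fin.ext ((val_strictMono hm).injective this)).symm
    rwa [this] at h1
  · intro h1
    exact ⟨g, h1, fun j => prof_mid h g j⟩

lemma MStar_rev (v : Fin (d + 3) → ℝ) : ∑ i, (MStar d m).p v i =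
    alloc m v 0 * price m v + alloc m v (Fin.last (d + 2)) := by
  change ∑ i, alloc m v i * (if i = 0 then price m v else 1) = _
  rw [sum_all, if_pos rfl, if_neg last_ne_zero]
  simp [alloc_mid]

lemma OPT_ge (hm : 2 ≤ m) : (5 - 1 / (m : ℝ)) / 2 ≤ OPT (DD d m) := by
  classical
  have hm0 : 0 < m := by omega
  have hmR : (2 : ℝ) ≤ m := by exact_mod_cast hm
  have hN := N0_pos (d := d) hm0
  refine le_trans ?_ (le_OPT (DD d m) (DD_isDist hm0) (MStar_valid d m))
  rw [DD_expect]
  have hpt : ∀ g : Fin (d + 1) → Fin (2 * m),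
      w2 g * ∑ i, (MStar d m).p (prof 2 g) i + wH g * ∑ i, (MStar d m).p (prof (2 * m) g) i =
      ((1 + sgn g) + (3 - 1 / m) * ((1 - sgn g) / 2)) / N0 d m := by
    intro g
    rw [MStar_rev, MStar_rev, alloc_zero, alloc_zero, alloc_last, alloc_last]
    unfold price w2 wH
    simp only [Ev_prof hm0, prof_zero, prof_last]
    rcases sgn_eq g with h | h
    · rw [h]
      simp
      ring
    · rw [h]
      have h2 : ¬ ((2 : ℝ) * m ≤ 2) := by push Not; linarith
      have h3 : ¬ ((-1 : ℝ) = 1) := by norm_num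
      have h4 : (2 : ℝ) < 2 * m := by linarith
      simp only [h3, h2, h4, if_true, if_false, not_false_eq_true, true_and, le_refl, lt_self_iff_false,
        false_and, and_false]
      field_simp
      ring
  rw [Finset.sum_congr rfl fun g _ => hpt g, ← Finset.sum_div, le_div_iff₀ hN]
  have hS0 : ∑ g : Fin (d + 1) → Fin (2 * m), sgn g = 0 := sum_sgn
  have hS1 := sum_one (d := d) (m := m)
  rw [Finset.sum_add_distrib, Finset.sum_add_distrib, ← Finset.mul_sum, ← Finset.sum_div,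
    Finset.sum_sub_distrib, hS0, hS1]
  apply le_of_eq
  ring

/-- The bound on the revenue of every lookahead mechanism in the example. -/
lemma look_le (hm : 2 ≤ m) {M : Finset (Fin (d + 3)) → Mech (d + 3)}
    (hM : IsLookahead (d + 2) (DD d m) M) : lookRev (d + 2) (DD d m) M ≤ 2 + (d + 4) / m := by
  have hD : IsDist (DD d m) := DD_isDist (by omega)
  have hne : (DD d m).support.Nonempty := by
    by_contra hcon
    rw [Finset.not_nonempty_iff_eq_empty] at hcon
    have := hD.2.1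
    rw [hcon] at this
    simp at this
  obtain ⟨v₀, hv₀⟩ := hne
  have hV : Valid (KK d) (M (KK d)) := by
    have := (hM v₀ hv₀).1
    rwa [top_DD hm hv₀] at this
  refine le_trans (le_of_eq ?_) (rev_le hm hV)
  refine Finset.sum_congr rfl fun v hv => ?_
  rw [top_DD hm hv]

lemma ratio_le (hm : 2 ≤ m) {M : Finset (Fin (d + 3)) → Mech (d + 3)}
    (hM : IsLookahead (d + 2) (DD d m) M) :
    lookRev (d + 2) (DD d m) M / OPT (DD d m) ≤ (2 + (d + 4) / m) / ((5 - 1 / (m : ℝ)) / 2) := by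
  have hmR : (2 : ℝ) ≤ m := by exact_mod_cast hm
  have hq1 : 1 / (m : ℝ) ≤ 1 / 2 := by
    rw [div_le_div_iff₀ (by linarith) (by norm_num)]; linarith
  have h1 : 0 < (5 - 1 / (m : ℝ)) / 2 := by linarith
  have h2 := OPT_ge (d := d) hm
  have h3 := look_le hm hM
  have h4 : (0 : ℝ) ≤ 2 + (d + 4) / m := by positivity
  exact div_le_div₀ h4 h3 h1 h2

lemma OPT_pos (hm : 2 ≤ m) : 0 < OPT (DD d m) := by
  have hmR : (2 : ℝ) ≤ m := by exact_mod_cast hm
  have hq1 : 1 / (m : ℝ) ≤ 1 / 2 := by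
    rw [div_le_div_iff₀ (by linarith) (by norm_num)]; linarith
  have h2 := OPT_ge (d := d) hm
  linarith

lemma tendsto_bound (d : ℕ) : Filter.Tendsto
    (fun m : ℕ => (2 + ((d : ℝ) + 4) / m) / ((5 - 1 / (m : ℝ)) / 2)) Filter.atTop
    (nhds (4 / 5)) := by
  have h1 : Filter.Tendsto (fun m : ℕ => ((d : ℝ) + 4) / m) Filter.atTop (nhds 0) :=
    tendsto_const_div_atTop_nhds_zero_nat _
  have h2 : Filter.Tendsto (fun m : ℕ => (1 : ℝ) / m) Filter.atTop (nhds 0) :=
    tendsto_const_div_atTop_nhds_zero_nat _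
  have h3 := (h1.const_add 2).div ((h2.const_sub 5).div_const 2) (by norm_num)
  have e : (2 + 0 : ℝ) / ((5 - 0) / 2) = 4 / 5 := by norm_num
  rw [e] at h3
  exact h3

end construction

/-- For every `k ≥ 2` there are distributions without ties between the `k` highest bidders and
the others on which every `k`-lookahead mechanism earns at most a `4/5 + ε` fraction of the
optimal revenue. -/
lemma robust (k : ℕ) (hk : 2 ≤ k) (ε : ℝ) (hε : 0 < ε) :
    ∃ (n : ℕ) (D : (Fin n → ℝ) →₀ ℝ), IsDist D ∧ 0 < OPT D ∧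
      (∃ m, IsLookahead k D m) ∧
      ∀ m, IsLookahead k D m → lookRev k D m / OPT D ≤ 4 / 5 + ε := by
  obtain ⟨d, rfl⟩ : ∃ d, k = d + 2 := ⟨k - 2, by omega⟩
  have h := (tendsto_bound d).eventually (gt_mem_nhds (show (4 / 5 : ℝ) < 4 / 5 + ε by linarith))
  obtain ⟨m, hm1, hm2⟩ := (h.and (Filter.eventually_ge_atTop 2)).exists
  exact ⟨d + 3, DD d m, DD_isDist (by omega), OPT_pos hm2, exists_look_DD hm2,
    fun M hM => (ratio_le hm2 hM).trans hm1.le⟩

lemma rho_le (k : ℕ) (hk : 2 ≤ k) : rho k ≤ 4 / 5 := by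
  refine le_of_forall_pos_le_add fun ε hε => ?_
  obtain ⟨n, D, hD, hO, ⟨m, hm⟩, hall⟩ := robust k hk ε hε
  exact (csInf_le (rho_bddBelow k) ⟨n, D, m, hD, hO, hm, rfl⟩).trans (hall m hm)

/-- **Disproof of `ρ_k → 1`.** The approximation ratio of the `k`-lookahead mechanism is at most
`4/5` for every `k ≥ 2`; in particular it does not tend to `1`. -/
theorem result :
    (∀ k : ℕ, 2 ≤ k → rho k ≤ 4 / 5) ∧
    ¬ Filter.Tendsto rho Filter.atTop (nhds 1) ∧
    (∀ k : ℕ, 2 ≤ k → ∀ ε : ℝ, 0 < ε → ∃ (n : ℕ) (D : (Fin n → ℝ) →₀ ℝ),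
      IsDist D ∧ 0 < OPT D ∧ (∃ m, IsLookahead k D m) ∧
      ∀ m, IsLookahead k D m → lookRev k D m / OPT D ≤ 4 / 5 + ε) := by
  refine ⟨rho_le, ?_, robust⟩
  intro h
  have h1 : (1 : ℝ) ≤ 4 / 5 := by
    refine le_of_tendsto h ?_
    filter_upwards [Filter.eventually_ge_atTop 2] with k hk
    exact rho_le k hk
  norm_num at h1

end Pool.Agent.Results.MP_0f9109_lc.RatioFourFifths
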